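import Mathlib

set_option autoImplicit false

namespace Pool.Agent.H442Z.DQ

open MeasureTheory Set Filter
open scoped ENNReal

/-- the heights -/
noncomputable def G (α : ℝ) : ℕ → ℝ
  | 0 => 0
  | n + 1 => G α n + 4 * (10 * 4 ^ n * (G α n + 1)) ^ (1 / (1 - α))

/-- the slopes -/
noncomputable def mu (α : ℝ) (n : ℕ) : ℝ := (10 * 4 ^ n * (G α n + 1)) ^ (1 / (1 - α))

/-- the radii -/
noncomputable def rr (α : ℝ) (n : ℕ) : ℝ := (G α n + 1) / mu α n

theorem G_succ (α : ℝ) (n : ℕ) : G α (n + 1) = G α n + 4 * mu α n := rfl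

theorem G_nonneg (α : ℝ) (n : ℕ) : 0 ≤ G α n := by
  induction n with
  | zero => exact le_rfl
  | succ n ih =>
    rw [G]
    positivity

section
variable {α : ℝ} (h0 : 0 < α) (h1 : α < 1)
include h0 h1

theorem C_le_mu (n : ℕ) : 10 * 4 ^ n * (G α n + 1) ≤ mu α n := by
  have hG := G_nonneg α n
  have h4 : (1 : ℝ) ≤ 4 ^ n := one_le_pow₀ (by norm_num)
  have hC : (1 : ℝ) ≤ 10 * 4 ^ n * (G α n + 1) := by nlinarith
  have he : (1 : ℝ) ≤ 1 / (1 - α) := by
    rw [le_div_iff₀ (by linarith)]; linarith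
  calc _ = (10 * 4 ^ n * (G α n + 1)) ^ (1 : ℝ) := (Real.rpow_one _).symm
    _ ≤ _ := Real.rpow_le_rpow_of_exponent_le hC he

theorem G_lt_mu (n : ℕ) : G α n + 1 ≤ mu α n := by
  have hG := G_nonneg α n
  have h4 : (1 : ℝ) ≤ 4 ^ n := one_le_pow₀ (by norm_num)
  have := C_le_mu h0 h1 n
  nlinarith

theorem one_le_mu (n : ℕ) : 1 ≤ mu α n := by
  have := G_lt_mu h0 h1 n
  have := G_nonneg α n
  linarith

theorem mu_succ (n : ℕ) : 4 * mu α n ≤ mu α (n + 1) := by
  have := G_lt_mu h0 h1 (n + 1)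
  rw [G_succ] at this
  have := G_nonneg α n
  linarith

theorem mu_mono : Monotone (mu α) := by
  apply monotone_nat_of_le_succ
  intro n
  have := mu_succ h0 h1 n
  have := one_le_mu h0 h1 n
  linarith

theorem G_mono : Monotone (G α) := by
  apply monotone_nat_of_le_succ
  intro n
  have := one_le_mu h0 h1 n
  rw [G_succ]; linarith

theorem rr_pos (n : ℕ) : 0 < rr α n := by
  have := one_le_mu h0 h1 n
  have := G_nonneg α n
  unfold rr; positivity

theorem rr_le (n : ℕ) : rr α n ≤ 1 / (10 * 4 ^ n) := by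
  have := one_le_mu h0 h1 n
  have := C_le_mu h0 h1 n
  unfold rr
  rw [div_le_div_iff₀ (by linarith) (by positivity)]
  linarith

theorem term_le (n : ℕ) : G α (n + 1) ^ α * (2 ^ n * (2 * rr α n)) ≤ (1 / 2) ^ n := by
  have hm := one_le_mu h0 h1 n
  have hG := G_nonneg α n
  have hG' := G_lt_mu h0 h1 n
  have e1 : G α (n + 1) ^ α ≤ 5 * mu α n ^ α := by
    calc G α (n + 1) ^ α ≤ (5 * mu α n) ^ α := by
          apply Real.rpow_le_rpow (G_nonneg α _) _ h0.le
          rw [G_succ]; linarith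
      _ = 5 ^ α * mu α n ^ α := Real.mul_rpow (by norm_num) (by linarith)
      _ ≤ 5 * mu α n ^ α := by
          apply mul_le_mul_of_nonneg_right _ (by positivity)
          calc (5 : ℝ) ^ α ≤ 5 ^ (1 : ℝ) := Real.rpow_le_rpow_of_exponent_le (by norm_num) h1.le
            _ = 5 := Real.rpow_one _
  have e2 : mu α n ^ (1 - α) = 10 * 4 ^ n * (G α n + 1) := by
    unfold mu
    rw [← Real.rpow_mul (by positivity), one_div, inv_mul_cancel₀ (by linarith), Real.rpow_one]
  have e3 : mu α n = mu α n ^ α * (10 * 4 ^ n * (G α n + 1)) := by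
    rw [← e2, ← Real.rpow_add (by linarith)]
    simp
  have hp : 0 < mu α n ^ α := by positivity
  have e4 : mu α n ^ α * rr α n = 1 / (10 * 4 ^ n) := by
    unfold rr
    rw [mul_div_assoc', div_eq_div_iff (by positivity) (by positivity)]
    conv_rhs => rw [e3]
    ring
  have hr := rr_pos h0 h1 n
  calc _ ≤ 5 * mu α n ^ α * (2 ^ n * (2 * rr α n)) := by gcongr
    _ = 10 * 2 ^ n * (mu α n ^ α * rr α n) := by ring
    _ = (1 / 2) ^ n := by
      rw [e4, show (4 : ℝ) = 2 * 2 by norm_num, mul_pow, one_div_pow]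
      field_simp

end

/-- jump points -/
noncomputable def J (α : ℝ) : ℕ → Finset ℝ
  | 0 => {0}
  | n + 1 => (J α n).image (· + rr α n) ∪ (J α n).image (· - rr α n)

/-- lifted sets -/
def P (α : ℝ) (n : ℕ) : Set ℝ := ⋃ j ∈ J α n, Ioo (j - rr α n) (j + rr α n)

theorem mem_P {α : ℝ} {n : ℕ} {x : ℝ} :
    x ∈ P α n ↔ ∃ j ∈ J α n, j - rr α n < x ∧ x < j + rr α n := by
  simp only [P, mem_iUnion, mem_Ioo, exists_prop]

theorem P_meas (α : ℝ) (n : ℕ) : MeasurableSet (P α n) :=
  Finset.measurableSet_biUnion _ fun _ _ => measurableSet_Ioo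

theorem card_J (α : ℝ) (n : ℕ) : (J α n).card ≤ 2 ^ n := by
  induction n with
  | zero => simp [J]
  | succ n ih =>
    rw [J]
    refine (Finset.card_union_le _ _).trans ?_
    have a := Finset.card_image_le (s := J α n) (f := (· + rr α n))
    have b := Finset.card_image_le (s := J α n) (f := (· - rr α n))
    rw [pow_succ]; omega

open Classical in
/-- level at stage `n` -/
noncomputable def lev (α : ℝ) : ℕ → ℝ → ℕ
  | 0, _ => 0
  | n + 1, x => if x ∈ P α n then n + 1 else lev α n x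

theorem lev_meas (α : ℝ) (n : ℕ) : Measurable (lev α n) := by
  induction n with
  | zero => exact measurable_const
  | succ n ih => exact Measurable.ite (P_meas α n) measurable_const ih

theorem lev_le (α : ℝ) (n : ℕ) (x : ℝ) : lev α n x ≤ n := by
  induction n with
  | zero => exact le_rfl
  | succ n ih =>
    rw [lev]; split_ifs <;> omega

theorem lev_mono (α : ℝ) (x : ℝ) : Monotone (fun n => lev α n x) := by
  apply monotone_nat_of_le_succ
  intro n
  have := lev_le α n x
  show lev α n x ≤ lev α (n + 1) x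
  rw [lev]; split_ifs <;> omega

theorem lev_const {α : ℝ} {x : ℝ} {N : ℕ} (h : ∀ n, N ≤ n → x ∉ P α n) (n : ℕ) (hn : N ≤ n) :
    lev α n x = lev α N x := by
  induction n, hn using Nat.le_induction with
  | base => rfl
  | succ n hn ih => rw [lev, if_neg (h n hn), ih]

theorem lev_cases (α : ℝ) (n : ℕ) (x : ℝ) :
    lev α n x = 0 ∨ ∃ k, lev α n x = k + 1 ∧ x ∈ P α k := by
  induction n with
  | zero => exact Or.inl rfl
  | succ n ih =>
    rw [lev]
    split_ifs with h
    · exact Or.inr ⟨n, rfl, h⟩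
    · exact ih

theorem jump {α : ℝ} (h0 : 0 < α) (h1 : α < 1) (n : ℕ) (x y : ℝ) (hxy : x < y)
    (h : lev α n x ≠ lev α n y) : ∃ j ∈ J α n, x ≤ j ∧ j ≤ y := by
  induction n with
  | zero => exact absurd rfl h
  | succ n ih =>
    have hr := rr_pos h0 h1 n
    have m1 : ∀ j ∈ J α n, j + rr α n ∈ J α (n + 1) := fun j hj => by
      rw [J]; exact Finset.mem_union_left _ (Finset.mem_image_of_mem (· + rr α n) hj)
    have m2 : ∀ j ∈ J α n, j - rr α n ∈ J α (n + 1) := fun j hj => by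
      rw [J]; exact Finset.mem_union_right _ (Finset.mem_image_of_mem (· - rr α n) hj)
    rw [lev, lev] at h
    by_cases hx : x ∈ P α n <;> by_cases hy : y ∈ P α n
    · simp [hx, hy] at h
    · obtain ⟨j, hj, a, b⟩ := mem_P.1 hx
      refine ⟨_, m1 j hj, b.le, ?_⟩
      by_contra hc
      exact hy (mem_P.2 ⟨j, hj, by linarith, by linarith⟩)
    · obtain ⟨j, hj, a, b⟩ := mem_P.1 hy
      refine ⟨_, m2 j hj, ?_, a.le⟩
      by_contra hc
      exact hx (mem_P.2 ⟨j, hj, by linarith, by linarith⟩)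
    · rw [if_neg hx, if_neg hy] at h
      obtain ⟨j, hj, a, b⟩ := ih h
      refine ⟨_, m2 j hj, ?_, by linarith⟩
      by_contra hc
      exact hx (mem_P.2 ⟨j, hj, by linarith, by linarith⟩)

/-- final level -/
noncomputable def L (α : ℝ) (x : ℝ) : ℕ := limsup (fun n => lev α n x) atTop

theorem L_meas (α : ℝ) : Measurable (L α) := Measurable.limsup (lev_meas α)

/-- good points -/
def Good (α : ℝ) (x : ℝ) : Prop := ∃ N, ∀ n, N ≤ n → x ∉ P α n

theorem L_eq {α : ℝ} {x : ℝ} {N : ℕ} (h : ∀ n, N ≤ n → x ∉ P α n) : L α x = lev α N x := by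
  unfold L
  rw [limsup_congr (v := fun _ => lev α N x), limsup_const]
  filter_upwards [eventually_ge_atTop N] with n hn using lev_const h n hn

theorem lev_le_L {α : ℝ} {x : ℝ} (h : Good α x) (n : ℕ) : lev α n x ≤ L α x := by
  obtain ⟨N, hN⟩ := h
  have : L α x = lev α (max N n) x := L_eq fun k hk => hN k (le_of_max_le_left hk)
  rw [this]
  exact lev_mono α x (le_max_right _ _)

theorem notMem_of_L_le {α : ℝ} {x : ℝ} (h : Good α x) {m : ℕ} (hm : L α x ≤ m) (k : ℕ)
    (hk : m ≤ k) : x ∉ P α k := by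
  intro hx
  have := lev_le_L h (k + 1)
  rw [lev, if_pos hx] at this
  omega

/-- the function -/
noncomputable def U (α : ℝ) (x : ℝ) : ℝ := G α (L α x)

theorem U_meas (α : ℝ) : Measurable (U α) := (measurable_from_top (f := G α)).comp (L_meas α)

section
variable {α : ℝ} (h0 : 0 < α) (h1 : α < 1)
include h0 h1

theorem G_gap {a b : ℕ} (hab : a ≠ b) :
    ∃ c, max a b = c + 1 ∧ 4 * mu α c ≤ |G α a - G α b| ∧ |G α a - G α b| ≤ G α (c + 1) := by
  wlog h : a < b generalizing a b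
  · obtain ⟨c, e1, e2, e3⟩ := this hab.symm (by omega)
    exact ⟨c, by rwa [max_comm], by rwa [abs_sub_comm], by rwa [abs_sub_comm]⟩
  obtain ⟨c, rfl⟩ : ∃ c, b = c + 1 := ⟨b - 1, by omega⟩
  have e1 : G α a ≤ G α c := G_mono h0 h1 (by omega)
  have e2 := G_succ α c
  have e3 := G_nonneg α a
  have e4 := one_le_mu h0 h1 c
  refine ⟨c, max_eq_right h.le, ?_, ?_⟩ <;> rw [abs_of_nonpos (by linarith)] <;> linarith

theorem avoid {x y : ℝ} (hx : Good α x) (hy : Good α y) (hxy : x < y) (h2 : y - x ≤ 2) (m : ℕ) :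
    |U α y - U α x| / (y - x) ≤ mu α m ∨ 2 * mu α m ≤ |U α y - U α x| / (y - x) := by
  have hm := one_le_mu h0 h1 m
  have hd : 0 < y - x := by linarith
  by_cases hL : L α y = L α x
  · left
    unfold U
    rw [hL]
    simp only [sub_self, abs_zero, zero_div]
    linarith
  obtain ⟨c, e1, e2, e3⟩ := G_gap h0 h1 hL
  by_cases hc : m ≤ c
  · right
    have := mu_mono h0 h1 hc
    rw [le_div_iff₀ hd]
    unfold U
    nlinarith
  · left
    have a1 : L α x ≤ m := by omega
    have a2 : L α y ≤ m := by omega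
    have b1 := notMem_of_L_le hx a1
    have b2 := notMem_of_L_le hy a2
    have hne : lev α m x ≠ lev α m y := by
      rw [← L_eq b1, ← L_eq b2]; exact Ne.symm hL
    obtain ⟨j, hj, c1, c2⟩ := jump h0 h1 m x y hxy hne
    have hr := rr_pos h0 h1 m
    have d1 : x ≤ j - rr α m := by
      by_contra hc
      exact b1 m le_rfl (mem_P.2 ⟨j, hj, by linarith, by linarith⟩)
    have d2 : j + rr α m ≤ y := by
      by_contra hc
      exact b2 m le_rfl (mem_P.2 ⟨j, hj, by linarith, by linarith⟩)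
    have f1 : G α (c + 1) ≤ G α m := G_mono h0 h1 (by omega)
    have f2 : mu α m * rr α m = G α m + 1 := by
      unfold rr; field_simp
    rw [div_le_iff₀ hd]
    unfold U
    have f3 : mu α m * rr α m ≤ mu α m * (y - x) := by
      apply mul_le_mul_of_nonneg_left <;> linarith
    linarith

theorem gap_one (x y : ℝ) : |U α y - U α x| = 0 ∨ 1 ≤ |U α y - U α x| := by
  by_cases hL : L α y = L α x
  · left; unfold U; rw [hL]; simp
  · right
    obtain ⟨c, -, e2, -⟩ := G_gap h0 h1 hL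
    have := one_le_mu h0 h1 c
    unfold U
    linarith

theorem vol_P (n : ℕ) : volume (P α n) ≤ ENNReal.ofReal (2 ^ n * (2 * rr α n)) := by
  have hr := rr_pos h0 h1 n
  unfold P
  refine (measure_biUnion_finset_le _ _).trans ?_
  have : ∀ j ∈ J α n, volume (Ioo (j - rr α n) (j + rr α n)) = ENNReal.ofReal (2 * rr α n) := by
    intro j _
    rw [Real.volume_Ioo]; congr 1; ring
  rw [Finset.sum_congr rfl this, Finset.sum_const, nsmul_eq_mul,
    ENNReal.ofReal_mul (p := 2 ^ n) (by positivity)]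
  gcongr
  have := card_J α n
  rw [ENNReal.ofReal_pow (by norm_num), ENNReal.ofReal_ofNat]
  exact_mod_cast this

theorem geo_lt_top : ∑' n : ℕ, ENNReal.ofReal ((1 / 2 : ℝ) ^ n) < ∞ := by
  rw [← ENNReal.ofReal_tsum_of_nonneg (fun n => by positivity) summable_geometric_two]
  exact ENNReal.ofReal_lt_top

theorem ae_good : ∀ᵐ x : ℝ, Good α x := by
  have hs : ∑' n, volume (P α n) ≠ ∞ := by
    refine ne_of_lt (lt_of_le_of_lt (ENNReal.tsum_le_tsum fun n => ?_) (geo_lt_top h0 h1))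
    refine (vol_P h0 h1 n).trans (ENNReal.ofReal_le_ofReal ?_)
    have := rr_le h0 h1 n
    calc (2 : ℝ) ^ n * (2 * rr α n) ≤ 2 ^ n * (2 * (1 / (10 * 4 ^ n))) := by gcongr
      _ = (1 / 2) ^ n * (1 / 5) := by
        rw [show (4 : ℝ) = 2 * 2 by norm_num, mul_pow, one_div_pow]
        field_simp
        norm_num
      _ ≤ (1 / 2) ^ n := by
        have : (0 : ℝ) < (1 / 2) ^ n := by positivity
        linarith
  filter_upwards [ae_eventually_notMem hs] with x hx
  exact eventually_atTop.1 hx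

theorem summ : ∫⁻ x, ENNReal.ofReal (|U α x| ^ α) < ∞ := by
  have hb : ∀ᵐ x : ℝ, ENNReal.ofReal (|U α x| ^ α) ≤
      ∑' n, (P α n).indicator (fun _ => ENNReal.ofReal (G α (n + 1) ^ α)) x := by
    filter_upwards [ae_good h0 h1] with x hx
    obtain ⟨N, hN⟩ := hx
    unfold U
    rw [L_eq hN]
    rcases lev_cases α N x with h | ⟨k, h, hk⟩
    · rw [h]
      simp [G, Real.zero_rpow h0.ne']
    · rw [h, abs_of_nonneg (G_nonneg α _)]
      refine le_trans ?_ (ENNReal.le_tsum k)
      rw [indicator_of_mem hk]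
  refine lt_of_le_of_lt (lintegral_mono_ae hb) ?_
  rw [lintegral_tsum fun n => (measurable_const.indicator (P_meas α n)).aemeasurable]
  refine lt_of_le_of_lt (ENNReal.tsum_le_tsum fun n => ?_) (geo_lt_top h0 h1)
  rw [lintegral_indicator_const (P_meas α n)]
  calc _ ≤ ENNReal.ofReal (G α (n + 1) ^ α) * ENNReal.ofReal (2 ^ n * (2 * rr α n)) := by
        gcongr; exact vol_P h0 h1 n
    _ = ENNReal.ofReal (G α (n + 1) ^ α * (2 ^ n * (2 * rr α n))) :=
        (ENNReal.ofReal_mul (Real.rpow_nonneg (G_nonneg α _) _)).symm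
    _ ≤ _ := ENNReal.ofReal_le_ofReal (term_le h0 h1 n)

theorem J_bound (n : ℕ) : ∀ j ∈ J α n, j ≤ 1 / 2 - (1 / 2) ^ (n + 1) := by
  induction n with
  | zero => intro j hj; simp only [J, Finset.mem_singleton] at hj; rw [hj]; norm_num
  | succ n ih =>
    have hr := rr_pos h0 h1 n
    have h2 : rr α n ≤ (1 / 2) ^ (n + 2) := by
      refine (rr_le h0 h1 n).trans ?_
      rw [one_div_pow, pow_add]
      apply one_div_le_one_div_of_le (by positivity)
      have : (2 : ℝ) ^ n ≤ 4 ^ n := by gcongr; norm_num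
      have : (0 : ℝ) < 4 ^ n := by positivity
      nlinarith
    have e : (1 / 2 : ℝ) ^ (n + 1) = 2 * (1 / 2) ^ (n + 2) := by ring
    intro j hj
    rw [J, Finset.mem_union, Finset.mem_image, Finset.mem_image] at hj
    rcases hj with ⟨i, hi, rfl⟩ | ⟨i, hi, rfl⟩ <;> have := ih i hi <;> linarith

theorem U_zero {x : ℝ} (hx : 1 / 2 ≤ x) : U α x = 0 := by
  have h : ∀ n, 0 ≤ n → x ∉ P α n := by
    intro n _ hP
    obtain ⟨j, hj, -, b⟩ := mem_P.1 hP
    have m1 : j + rr α n ∈ J α (n + 1) := by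
      rw [J]; exact Finset.mem_union_left _ (Finset.mem_image_of_mem (· + rr α n) hj)
    have := J_bound h0 h1 _ _ m1
    have : (0 : ℝ) < (1 / 2) ^ (n + 1 + 1) := by positivity
    linarith
  unfold U
  rw [L_eq h]
  rfl

theorem U_pos {x : ℝ} (hg : Good α x) (hx : x ∈ Ioo 0 (rr α 0)) : 0 < U α x := by
  have hP : x ∈ P α 0 := mem_P.2 ⟨0, by simp [J], by linarith [hx.1, hx.2], by linarith [hx.2]⟩
  have := lev_le_L hg 1
  rw [lev, if_pos hP] at this
  have h2 : G α (0 + 1) ≤ G α (L α x) := G_mono h0 h1 this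
  have h3 := one_le_mu h0 h1 0
  rw [G_succ] at h2
  have := G_nonneg α 0
  unfold U
  linarith

theorem nonconst : ¬ ∃ c : ℝ, ∀ᵐ x ∂(volume.restrict (Ioo (-1 : ℝ) 1)), U α x = c := by
  rintro ⟨c, hc⟩
  rw [ae_restrict_iff' measurableSet_Ioo] at hc
  have ex : ∀ a b : ℝ, a < b → ∃ x ∈ Ioo a b, Good α x ∧ (x ∈ Ioo (-1 : ℝ) 1 → U α x = c) := by
    intro a b hab
    have hpos : volume (Ioo a b) ≠ 0 := by
      rw [Real.volume_Ioo]; simp [hab]
    have := (ae_good h0 h1).and hc
    exact Measure.exists_mem_of_measure_ne_zero_of_ae hpos (ae_restrict_of_ae this)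
  have hr := rr_pos h0 h1 0
  have hr2 := rr_le h0 h1 0
  obtain ⟨x, hx, -, ex1⟩ := ex (1 / 2) 1 (by norm_num)
  obtain ⟨y, hy, gy, ey1⟩ := ex 0 (rr α 0) hr
  have a1 := ex1 ⟨by linarith [hx.1], hx.2⟩
  have a2 := ey1 ⟨by linarith [hy.1], by norm_num at hr2; linarith [hy.2]⟩
  have a3 := U_zero h0 h1 hx.1.le
  have a4 := U_pos h0 h1 gy hy
  linarith

end

/-- the set of allowed slopes -/
def Z (α : ℝ) : Set ℝ := {t | ∀ m, t ≤ mu α m ∨ 2 * mu α m ≤ t}

/-- the weight -/
noncomputable def om (α : ℝ) (t : ℝ) : ℝ := |t| / (1 + t ^ 2) + Metric.infDist t (Z α)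

theorem om_cont (α : ℝ) : Continuous (om α) := by
  unfold om
  refine Continuous.add ?_ (Metric.continuous_infDist_pt _)
  exact continuous_abs.div (by fun_prop) fun t => by positivity

theorem om_nonneg (α t : ℝ) : 0 ≤ om α t := by
  have := Metric.infDist_nonneg (x := t) (s := Z α)
  unfold om; positivity

theorem om_pos (α t : ℝ) (ht : 0 < t) : 0 < om α t := by
  have := Metric.infDist_nonneg (x := t) (s := Z α)
  have h2 : 0 < |t| := abs_pos.2 ht.ne'
  unfold om; positivity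

section
variable {α : ℝ} (h0 : 0 < α) (h1 : α < 1)
include h0 h1

theorem zero_mem_Z : (0 : ℝ) ∈ Z α := fun m => Or.inl (by linarith [one_le_mu h0 h1 m])

theorem om_zero : om α 0 = 0 := by
  unfold om
  rw [Metric.infDist_zero_of_mem (zero_mem_Z h0 h1)]
  simp

theorem diverge : ∫⁻ t in Ioi (1 : ℝ), ENNReal.ofReal (om α t / t ^ 2) = ∞ := by
  let I : ℕ → Set ℝ := fun m => Ioo (5 / 4 * mu α m) (7 / 4 * mu α m)
  have hsub : (⋃ m, I m) ⊆ Ioi 1 := by
    intro t ht
    obtain ⟨m, hm⟩ := mem_iUnion.1 ht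
    have := one_le_mu h0 h1 m
    show 1 < t
    linarith [hm.1]
  have hdis : Pairwise (Function.onFun Disjoint I) := by
    have key : ∀ m k, m < k → Disjoint (I m) (I k) := by
      intro m k hmk
      rw [Set.disjoint_left]
      intro t a b
      have e1 := mu_succ h0 h1 m
      have e2 : mu α (m + 1) ≤ mu α k := mu_mono h0 h1 hmk
      have e3 := one_le_mu h0 h1 m
      linarith [a.2, b.1]
    intro m k hmk
    rcases lt_or_gt_of_ne hmk with h | h
    · exact key m k h
    · exact (key k m h).symm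
  have hI : ∀ m, ENNReal.ofReal (1 / 32) ≤ ∫⁻ t in I m, ENNReal.ofReal (om α t / t ^ 2) := by
    intro m
    have hm := one_le_mu h0 h1 m
    have hlow : ∀ t ∈ I m, ENNReal.ofReal (1 / (16 * mu α m)) ≤ ENNReal.ofReal (om α t / t ^ 2) := by
      intro t ht
      apply ENNReal.ofReal_le_ofReal
      have ht0 : 0 < t := by linarith [ht.1]
      have hd : mu α m / 4 ≤ Metric.infDist t (Z α) := by
        rw [Metric.le_infDist ⟨0, zero_mem_Z h0 h1⟩]
        intro z hz
        rw [Real.dist_eq]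
        rcases hz m with a | a
        · rw [abs_of_nonneg (by linarith [ht.1])]; linarith [ht.1]
        · rw [abs_of_nonpos (by linarith [ht.2])]; linarith [ht.2]
      have ho : mu α m / 4 ≤ om α t := by
        unfold om
        have : 0 ≤ |t| / (1 + t ^ 2) := by positivity
        linarith
      rw [div_le_div_iff₀ (by positivity) (by positivity)]
      have : t ^ 2 ≤ (2 * mu α m) ^ 2 := by
        apply sq_le_sq' <;> linarith [ht.2]
      nlinarith
    calc ENNReal.ofReal (1 / 32) = ENNReal.ofReal (1 / (16 * mu α m)) * volume (I m) := by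
          rw [Real.volume_Ioo, ← ENNReal.ofReal_mul (by positivity)]
          congr 1
          field_simp
          ring
      _ = ∫⁻ _ in I m, ENNReal.ofReal (1 / (16 * mu α m)) := (setLIntegral_const _ _).symm
      _ ≤ _ := setLIntegral_mono' measurableSet_Ioo hlow
  rw [eq_top_iff]
  calc (⊤ : ℝ≥0∞) = ∑' _ : ℕ, ENNReal.ofReal (1 / 32) :=
        (ENNReal.tsum_const_eq_top_of_ne_zero (by simp)).symm
    _ ≤ ∑' m, ∫⁻ t in I m, ENNReal.ofReal (om α t / t ^ 2) := ENNReal.tsum_le_tsum hI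
    _ = ∫⁻ t in ⋃ m, I m, ENNReal.ofReal (om α t / t ^ 2) :=
        (lintegral_iUnion (fun m => measurableSet_Ioo) hdis _).symm
    _ ≤ _ := lintegral_mono_set hsub

theorem integrand_le {x y : ℝ} (hx : Good α x) (hy : Good α y) (h2 : |y - x| ≤ 2) :
    om α (|U α y - U α x| / |y - x|) / |y - x| ≤ 1 := by
  wlog hxy : x ≤ y generalizing x y
  · have := this hy hx (by rwa [abs_sub_comm]) (by linarith)
    rwa [abs_sub_comm (U α x), abs_sub_comm x] at this
  rcases hxy.eq_or_lt with rfl | hxy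
  · simp
  have hd : 0 < y - x := by linarith
  rw [abs_of_pos hd] at h2 ⊢
  have hZ : |U α y - U α x| / (y - x) ∈ Z α := fun m => avoid h0 h1 hx hy hxy h2 m
  rcases gap_one h0 h1 x y with h | h
  · rw [h, zero_div, om_zero h0 h1]; simp
  · unfold om
    rw [Metric.infDist_zero_of_mem hZ, add_zero]
    set R := |U α y - U α x| / (y - x) with hR
    have hR1 : 1 ≤ R * (y - x) := by rw [hR]; field_simp; exact h
    have hR0 : 0 ≤ R := by positivity
    rw [abs_of_nonneg hR0, div_div, div_le_one (by positivity)]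
    nlinarith

theorem finite_F : ∫⁻ p in Ioo (-1 : ℝ) 1 ×ˢ Ioo (-1 : ℝ) 1,
    ENNReal.ofReal (om α (|U α p.2 - U α p.1| / |p.2 - p.1|) / |p.2 - p.1|) < ∞ := by
  have hm : MeasurableSet (Ioo (-1 : ℝ) 1 ×ˢ Ioo (-1 : ℝ) 1) :=
    measurableSet_Ioo.prod measurableSet_Ioo
  have g1 : ∀ᵐ p : ℝ × ℝ, Good α p.1 :=
    (Measure.quasiMeasurePreserving_fst (μ := volume) (ν := volume)).ae (ae_good h0 h1)
  have g2 : ∀ᵐ p : ℝ × ℝ, Good α p.2 :=
    (Measure.quasiMeasurePreserving_snd (μ := volume) (ν := volume)).ae (ae_good h0 h1)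
  have hb : ∀ᵐ p ∂(volume.restrict (Ioo (-1 : ℝ) 1 ×ˢ Ioo (-1 : ℝ) 1)),
      ENNReal.ofReal (om α (|U α p.2 - U α p.1| / |p.2 - p.1|) / |p.2 - p.1|) ≤ 1 := by
    rw [ae_restrict_iff' hm]
    filter_upwards [g1, g2] with p a b hp
    rw [← ENNReal.ofReal_one]
    apply ENNReal.ofReal_le_ofReal
    apply integrand_le h0 h1 a b
    rw [abs_le]
    constructor <;> linarith [hp.1.1, hp.1.2, hp.2.1, hp.2.2]
  refine lt_of_le_of_lt (lintegral_mono_ae hb) ?_
  rw [setLIntegral_const, one_mul, Measure.volume_eq_prod, Measure.prod_prod, Real.volume_Ioo]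
  exact ENNReal.mul_lt_top ENNReal.ofReal_lt_top ENNReal.ofReal_lt_top

end

end Pool.Agent.H442Z.DQ
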